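import Pool.Agent.Padt.Triple2
import Pool.Agent.UIL.Count

/-!
# Members of value `1`: structure and count
-/

set_option autoImplicit false

namespace Pool.Agent.Padt

open UIL Pool.Agent.P30.UnitInterval

/-- the multiplier `g` is close to the number given by `n` -/
def Near (n : ℕ) (g : ℤ) : Prop :=
  |(g : ℝ) ^ 2 - (Real.sinh 1 / 3) * (2 * n + 1) - (Real.sinh 1 / 6) / (2 * n + 1)| ≤
    3 / (2 * (n : ℝ) + 1) ^ 3

theorem members (N0 : ℕ) : ∃ B1 : ℕ, ∀ a b m : ℕ, B1 ≤ b → Sol a b m 1 →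
    ∃ (n : ℕ) (g : ℤ), N0 ≤ n ∧ 0 < g ∧ (2 * (a : ℤ) + 1) = g * Q n ∧ (2 * (b : ℤ) + 1) = g * P n ∧
      Odd n ∧ Near n g := by
  obtain ⟨C, hC, B0, hexp⟩ := expand 1
  obtain ⟨K, hK⟩ := struct C hC N0
  obtain ⟨B2, hB2, -⟩ := large 1 (Q K).toNat
  refine ⟨max B0 B2, fun a b m hb h => ?_⟩
  have h1 := (hexp a b m (le_trans (le_max_left _ _) hb) h).1
  have h2 := (hB2 a b m (le_trans (le_max_right _ _) hb) h).1
  have h3 : Q K ≤ 2 * (a : ℤ) + 1 := by omega
  refine hK (2 * (b : ℤ) + 1) (2 * (a : ℤ) + 1) h3 ?_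
  push_cast at h1 ⊢
  exact h1

theorem near_unique {n : ℕ} {g g' : ℤ} (hn : 2 ≤ n) (hg : 0 < g) (hg' : 0 < g') (h : Near n g)
    (h' : Near n g') : g = g' := by
  unfold Near at h h'
  have hn2 : (2 : ℝ) ≤ n := by exact_mod_cast hn
  have h3 : 3 / (2 * (n : ℝ) + 1) ^ 3 < 1 / 2 := by
    rw [div_lt_div_iff₀ (by positivity) (by norm_num)]
    have h4 : (5 : ℝ) ^ 3 ≤ (2 * (n : ℝ) + 1) ^ 3 := pow_le_pow_left₀ (by norm_num) (by linarith) 3
    norm_num at h4
    linarith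
  rw [abs_le] at h h'
  have h5 : (g : ℝ) ^ 2 < (g' : ℝ) ^ 2 + 1 := by linarith [h.2, h'.1]
  have h6 : (g' : ℝ) ^ 2 < (g : ℝ) ^ 2 + 1 := by linarith [h'.2, h.1]
  have h7 : g ^ 2 < g' ^ 2 + 1 := by exact_mod_cast h5
  have h8 : g' ^ 2 < g ^ 2 + 1 := by exact_mod_cast h6
  have h9 : g ^ 2 = g' ^ 2 := by omega
  exact (pow_left_inj₀ hg.le hg'.le two_ne_zero).1 h9

theorem lll_facts : (1 : ℝ) < Real.log (Real.log 16) ∧ (2.7 : ℝ) < Real.log 16 := by
  have h1 : Real.log 16 = 4 * Real.log 2 := by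
    rw [show (16 : ℝ) = 2 ^ 4 by norm_num, Real.log_pow]
    norm_num
  have h2 := Real.log_two_gt_d9
  have h3 : Real.exp 1 < Real.log 16 := by
    rw [h1]
    have := Real.exp_one_lt_d9
    linarith
  refine ⟨?_, by rw [h1]; linarith⟩
  rw [Real.lt_log_iff_exp_lt (by rw [h1]; linarith)]
  exact h3

theorem log_bound {X x : ℕ} (hX : 16 ≤ X) {a : ℕ} {g : ℤ} (ha : a < X) (hg : 0 < g)
    (h : (2 * (a : ℤ) + 1) = g * Q x) (hx : 1 ≤ x) :
    Real.log (2 * (x : ℝ) + 1) ≤ 4 * Real.log (Real.log X) := by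
  obtain ⟨k, rfl⟩ : ∃ k, x = k + 1 := ⟨x - 1, by omega⟩
  have hXr : (16 : ℝ) ≤ X := by exact_mod_cast hX
  obtain ⟨-, hl⟩ := lll_facts
  have hlX : Real.log 16 ≤ Real.log X := Real.log_le_log (by norm_num) hXr
  have h1 : (6 : ℤ) ^ k ≤ 2 * (a : ℤ) + 1 := by
    rw [h]
    have h2 := pow_le_Q k
    have h3 : 1 * Q (k + 1) ≤ g * Q (k + 1) :=
      mul_le_mul_of_nonneg_right (by omega) (Q_pos _).le
    linarith
  have h2 : (6 : ℤ) ^ k ≤ 2 * (X : ℤ) := by omega
  have h3 : (6 : ℝ) ^ k ≤ 2 * (X : ℝ) := by exact_mod_cast h2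
  have h4 : (6 : ℝ) ^ k ≤ (X : ℝ) ^ 2 := h3.trans (by nlinarith)
  have h5 := Real.log_le_log (by positivity) h4
  rw [Real.log_pow, Real.log_pow] at h5
  have h6 : 1 < Real.log 6 := by
    rw [Real.lt_log_iff_exp_lt (by norm_num)]
    exact lt_trans Real.exp_one_lt_d9 (by norm_num)
  have hk : (0 : ℝ) ≤ k := Nat.cast_nonneg k
  have h7 : (k : ℝ) ≤ 2 * Real.log X := by
    push_cast at h5
    nlinarith
  have h8 : 2 * (((k + 1 : ℕ) : ℝ)) + 1 ≤ Real.log X ^ 4 := by
    push_cast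
    have h9 : (2.7 : ℝ) ^ 3 ≤ Real.log X ^ 3 := pow_le_pow_left₀ (by norm_num) (by linarith) 3
    have h10 : (2.7 : ℝ) ^ 3 * Real.log X ≤ Real.log X ^ 3 * Real.log X :=
      mul_le_mul_of_nonneg_right h9 (by linarith)
    have h11 : Real.log X ^ 3 * Real.log X = Real.log X ^ 4 := by ring
    norm_num at h10
    linarith
  have h9 := Real.log_le_log (by positivity) h8
  rw [Real.log_pow] at h9
  exact_mod_cast h9

theorem count1 : ∃ C : ℝ, ∀ X : ℕ, 16 ≤ X → ∀ P : Finset (ℕ × ℕ),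
    (∀ p ∈ P, p.2 ≤ X ∧ ∃ m, Sol p.1 p.2 m 1) →
    (P.card : ℝ) ≤ C * Real.log (Real.log (Real.log X)) := by
  classical
  obtain ⟨N0, hN0⟩ := triple2
  obtain ⟨B1, hB1⟩ := members (max N0 2)
  have hL : 0 < Real.log ((39 : ℝ) / 38) := Real.log_pos (by norm_num)
  obtain ⟨hll, hl⟩ := lll_facts
  have hl3 : 0 < Real.log (Real.log (Real.log 16)) := Real.log_pos hll
  refine ⟨((B1 : ℝ) ^ 2 + 2 + 2 * Real.log 4 / Real.log ((39 : ℝ) / 38)) /
    Real.log (Real.log (Real.log 16)) + 2 / Real.log ((39 : ℝ) / 38), ?_⟩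
  intro X hX P hP
  have hXr : (16 : ℝ) ≤ X := by exact_mod_cast hX
  have hlogX : Real.log 16 ≤ Real.log X := Real.log_le_log (by norm_num) hXr
  have hllX : Real.log (Real.log 16) ≤ Real.log (Real.log X) :=
    Real.log_le_log (by linarith) hlogX
  have hlllX : Real.log (Real.log (Real.log 16)) ≤ Real.log (Real.log (Real.log X)) :=
    Real.log_le_log (by linarith) hllX
  have hsplit : P.card = (P.filter fun p => p.2 < B1).card + (P.filter fun p => ¬ p.2 < B1).card :=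
    (Finset.card_filter_add_card_filter_not _).symm
  have hP1 : (P.filter fun p => p.2 < B1).card ≤ B1 ^ 2 := by
    have h1 : (P.filter fun p => p.2 < B1) ⊆ (Finset.range B1) ×ˢ (Finset.range B1) := by
      intro p hp
      rw [Finset.mem_filter] at hp
      obtain ⟨_, m, hm⟩ := hP p hp.1
      have h2 := hm.hab
      rw [Finset.mem_product, Finset.mem_range, Finset.mem_range]
      omega
    have h2 := Finset.card_le_card h1
    rw [Finset.card_product, Finset.card_range] at h2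
    rw [sq]
    exact h2
  set P2 := P.filter fun p => ¬ p.2 < B1 with hP2
  have hmem : ∀ p : {p // p ∈ P2}, p.1.2 ≤ X ∧ p.1.1 < p.1.2 ∧ ∃ (n : ℕ) (g : ℤ), max N0 2 ≤ n ∧
      0 < g ∧ (2 * (p.1.1 : ℤ) + 1) = g * Q n ∧ (2 * (p.1.2 : ℤ) + 1) = g * Padt.P n ∧ Near n g := by
    rintro ⟨p, hp⟩
    rw [hP2, Finset.mem_filter] at hp
    obtain ⟨h1, m, hm⟩ := hP p hp.1
    obtain ⟨n, g, k1, k2, k3, k4, -, k5⟩ := hB1 p.1 p.2 m (not_lt.1 hp.2) hm
    exact ⟨h1, hm.hab, n, g, k1, k2, k3, k4, k5⟩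
  choose hpX hpab nn gg hnn hgg ha hb hnear using hmem
  have hinj : Function.Injective nn := by
    intro p p' h
    have h1 : 2 ≤ nn p := le_trans (le_max_right _ _) (hnn p)
    have h2 := hnear p'
    rw [← h] at h2
    have h3 := near_unique h1 (hgg p) (hgg p') (hnear p) h2
    have h4 := ha p
    have h5 := ha p'
    have h6 := hb p
    have h7 := hb p'
    rw [← h, ← h3] at h5 h7
    have h8 : p.1.1 = p'.1.1 := by omega
    have h9 : p.1.2 = p'.1.2 := by omega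
    exact Subtype.ext (Prod.ext h8 h9)
  set S := P2.attach.image nn with hS
  have hcard : S.card = P2.card := by
    rw [hS, Finset.card_image_of_injective _ hinj, Finset.card_attach]
  have hSmem : ∀ x ∈ S, ∃ p, nn p = x := by
    intro x hx
    rw [hS, Finset.mem_image] at hx
    obtain ⟨p, -, hp⟩ := hx
    exact ⟨p, hp⟩
  have hS1 : ∀ x ∈ S, 1 ≤ x := by
    intro x hx
    obtain ⟨p, rfl⟩ := hSmem x hx
    exact le_trans (by norm_num) (le_trans (le_max_right _ _) (hnn p))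
  have hS3 : ∀ x ∈ S, ∀ y ∈ S, ∀ z ∈ S, x < y → y < z → (2 * x + 1) ^ 39 ≤ (2 * z + 1) ^ 38 := by
    intro x hx y hy z hz hxy hyz
    obtain ⟨p, rfl⟩ := hSmem x hx
    obtain ⟨p', rfl⟩ := hSmem y hy
    obtain ⟨p'', rfl⟩ := hSmem z hz
    exact hN0 _ _ _ _ _ _ (le_trans (le_max_left _ _) (hnn p)) hxy hyz (hnear p) (hnear p')
      (hnear p'')
  have hScard : (S.card : ℝ) ≤
      2 + 2 * (Real.log 4 + Real.log (Real.log (Real.log X))) / Real.log ((39 : ℝ) / 38) := by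
    rcases Nat.eq_zero_or_pos S.card with h0 | h0
    · rw [h0]
      have : 0 ≤ 2 * (Real.log 4 + Real.log (Real.log (Real.log X))) / Real.log ((39 : ℝ) / 38) := by
        have : 0 < Real.log 4 := Real.log_pos (by norm_num)
        apply div_nonneg _ hL.le
        linarith
      push_cast
      linarith
    · obtain ⟨n, hn⟩ : ∃ n : ℕ, n = (S.card - 1) / 2 := ⟨_, rfl⟩
      obtain ⟨x, hx, hx2⟩ := card_growth n S hS1 hS3 (by omega)
      have hx1 := hS1 x hx
      obtain ⟨p, rfl⟩ := hSmem x hx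
      have h1 := log_bound hX (lt_of_lt_of_le (hpab p) (hpX p)) (hgg p) (ha p) hx1
      have h2 := hx2.trans h1
      have h3 := Real.log_le_log (by positivity) h2
      rw [Real.log_pow, Real.log_mul (by norm_num) (by linarith)] at h3
      have h4 : (n : ℝ) ≤ (Real.log 4 + Real.log (Real.log (Real.log X))) / Real.log ((39 : ℝ) / 38) := by
        rw [le_div_iff₀ hL]
        exact h3
      have h5 : (S.card : ℝ) ≤ 2 * n + 2 := by
        have : S.card ≤ 2 * n + 2 := by omega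
        exact_mod_cast this
      have h6 : 2 * (Real.log 4 + Real.log (Real.log (Real.log X))) / Real.log ((39 : ℝ) / 38) =
          2 * ((Real.log 4 + Real.log (Real.log (Real.log X))) / Real.log ((39 : ℝ) / 38)) := by ring
      rw [h6]
      linarith
  have hfin : (P.card : ℝ) ≤ (B1 : ℝ) ^ 2 +
      (2 + 2 * (Real.log 4 + Real.log (Real.log (Real.log X))) / Real.log ((39 : ℝ) / 38)) := by
    rw [hcard] at hScard
    have h1 : (P.card : ℝ) = ((P.filter fun p => p.2 < B1).card : ℝ) + (P2.card : ℝ) := by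
      exact_mod_cast hsplit
    have h2 : (((P.filter fun p => p.2 < B1).card : ℕ) : ℝ) ≤ (B1 : ℝ) ^ 2 := by exact_mod_cast hP1
    linarith
  refine hfin.trans ?_
  have h7 : 0 < Real.log 4 := Real.log_pos (by norm_num)
  set K : ℝ := (B1 : ℝ) ^ 2 + 2 + 2 * Real.log 4 / Real.log ((39 : ℝ) / 38) with hK
  have hK0 : 0 ≤ K := by positivity
  have h8 : K ≤ K / Real.log (Real.log (Real.log 16)) * Real.log (Real.log (Real.log X)) := by
    have : K / Real.log (Real.log (Real.log 16)) * Real.log (Real.log (Real.log 16)) ≤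
        K / Real.log (Real.log (Real.log 16)) * Real.log (Real.log (Real.log X)) :=
      mul_le_mul_of_nonneg_left hlllX (by positivity)
    rw [div_mul_cancel₀ _ hl3.ne'] at this
    exact this
  have h9 : (B1 : ℝ) ^ 2 + (2 + 2 * (Real.log 4 + Real.log (Real.log (Real.log X))) /
      Real.log ((39 : ℝ) / 38)) =
      K + 2 / Real.log ((39 : ℝ) / 38) * Real.log (Real.log (Real.log X)) := by
    rw [hK]
    ring
  rw [h9, add_mul]
  linarith

end Pool.Agent.Padt
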