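import Pool.Agent.Padt.TripleS
import Pool.Agent.Padt.Count1
import Pool.Agent.UCF.Main

/-!
# The number of members of value `1` and of value `2`
-/

set_option autoImplicit false

namespace Pool.Agent.Padt

open UIL Pool.Agent.P30.UnitInterval UCF

theorem pow_le_q {s : ℕ} (hs : s = 1 ∨ s = 2) (k : ℕ) : 3 ^ k ≤ (conv s (k + 1)).2 := by
  induction k with
  | zero => simp [conv]
  | succ k ih =>
    have h := q_grow hs (k + 1)
    calc 3 ^ (k + 1) = 3 * 3 ^ k := by ring
      _ ≤ 3 * (conv s (k + 1)).2 := Nat.mul_le_mul_left 3 ih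
      _ ≤ (2 * (k + 1) + 1) * (conv s (k + 1)).2 := Nat.mul_le_mul_right _ (by omega)
      _ ≤ _ := h

theorem log_boundS {s : ℕ} (hs : s = 1 ∨ s = 2) {X x : ℕ} (hX : 16 ≤ X) (hx : 1 ≤ x)
    (h : (conv s x).2 ≤ X) :
    Real.log (2 * (x : ℝ) + 1) ≤ 4 * Real.log (Real.log X) := by
  obtain ⟨k, rfl⟩ : ∃ k, x = k + 1 := ⟨x - 1, by omega⟩
  have hXr : (16 : ℝ) ≤ X := by exact_mod_cast hX
  obtain ⟨-, hl⟩ := lll_facts
  have hlX : Real.log 16 ≤ Real.log X := Real.log_le_log (by norm_num) hXr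
  have h3 : (3 : ℝ) ^ k ≤ (X : ℝ) := by exact_mod_cast (pow_le_q hs k).trans h
  have h5 := Real.log_le_log (by positivity) h3
  rw [Real.log_pow] at h5
  have h6 : 1 < Real.log 3 := by
    rw [Real.lt_log_iff_exp_lt (by norm_num)]
    exact lt_trans Real.exp_one_lt_d9 (by norm_num)
  have hk : (0 : ℝ) ≤ k := Nat.cast_nonneg k
  have h7 : (k : ℝ) ≤ Real.log X := by nlinarith
  have h8 : 2 * (((k + 1 : ℕ) : ℝ)) + 1 ≤ Real.log X ^ 4 := by
    push_cast
    have h9 : (2.7 : ℝ) ^ 3 ≤ Real.log X ^ 3 := pow_le_pow_left₀ (by norm_num) (by linarith) 3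
    have h10 : (2.7 : ℝ) ^ 3 * Real.log X ≤ Real.log X ^ 3 * Real.log X :=
      mul_le_mul_of_nonneg_right h9 (by linarith)
    have h11 : Real.log X ^ 3 * Real.log X = Real.log X ^ 4 := by ring
    norm_num at h10
    linarith
  have h9 := Real.log_le_log (by positivity) h8
  rw [Real.log_pow] at h9
  exact_mod_cast h9

theorem quot_lt {s : ℕ} (hs : s = 1 ∨ s = 2) {x y : ℕ} (h : x < y) : quot s x < quot s y := by
  unfold quot
  rcases hs with rfl | rfl <;> omega

theorem quot_pow {s : ℕ} (hs : s = 1 ∨ s = 2) {x z : ℕ} (h : quot s x ^ 39 ≤ quot s z ^ 38) :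
    (2 * x + 1) ^ 39 ≤ (2 * z + 1) ^ 38 := by
  rcases hs with rfl | rfl
  · have e : ∀ n, quot 1 n = 2 * (2 * n + 1) := fun n => by unfold quot; omega
    rw [e, e, mul_pow, mul_pow] at h
    have h1 : 2 ^ 38 * (2 * x + 1) ^ 39 ≤ 2 ^ 38 * (2 * z + 1) ^ 38 :=
      le_trans (Nat.mul_le_mul_right _ (by norm_num)) h
    exact Nat.le_of_mul_le_mul_left h1 (by positivity)
  · have e : ∀ n, quot 2 n = 2 * n + 1 := fun n => by unfold quot; omega
    rwa [e, e] at h

/-- the number of members of value `s = 1, 2` from the expansion of the multiple -/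
theorem countS {s : ℕ} (hs : s = 1 ∨ s = 2) {C : ℝ} (hC : 0 < C)
    (hcore : ∀ N : ℕ, ∃ B : ℕ, ∀ a b m : ℕ, B ≤ b → Sol a b m s → ∃ n d : ℕ, N ≤ n ∧
      a + b + 1 = d * (conv s n).1 ∧ b - a = d * (conv s n).2 ∧
      |(d : ℝ) ^ 2 - Real.sinh s / 6 * quot s n - Real.sinh s / 3 / quot s n| ≤ C / (quot s n : ℝ) ^ 3) :
    ∃ K : ℝ, ∀ X : ℕ, 16 ≤ X → ∀ P : Finset (ℕ × ℕ),
    (∀ p ∈ P, p.2 ≤ X ∧ ∃ m, Sol p.1 p.2 m s) →
    (P.card : ℝ) ≤ K * Real.log (Real.log (Real.log X)) := by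
  classical
  have hs1 : 1 ≤ s := by omega
  obtain ⟨N0, hN0⟩ := tripleS s hs1 C hC
  obtain ⟨N1, hN1⟩ := exists_nat_gt (2 * C)
  obtain ⟨B1, hB1⟩ := hcore (max N0 (max N1 1))
  have hL : 0 < Real.log ((39 : ℝ) / 38) := Real.log_pos (by norm_num)
  obtain ⟨hll, hl⟩ := lll_facts
  have hl3 : 0 < Real.log (Real.log (Real.log 16)) := Real.log_pos hll
  refine ⟨((B1 : ℝ) ^ 2 + 2 + 2 * Real.log 4 / Real.log ((39 : ℝ) / 38)) /
    Real.log (Real.log (Real.log 16)) + 2 / Real.log ((39 : ℝ) / 38), ?_⟩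
  intro X hX P hP
  have hXr : (16 : ℝ) ≤ X := by exact_mod_cast hX
  have hlogX : Real.log 16 ≤ Real.log X := Real.log_le_log (by norm_num) hXr
  have hllX : Real.log (Real.log 16) ≤ Real.log (Real.log X) :=
    Real.log_le_log (by linarith) hlogX
  have hlllX : Real.log (Real.log (Real.log 16)) ≤ Real.log (Real.log (Real.log X)) :=
    Real.log_le_log (by linarith) hllX
  have hsplit : P.card = (P.filter fun p => p.2 < B1).card + (P.filter fun p => ¬ p.2 < B1).card :=
    (Finset.card_filter_add_card_filter_not _).symm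
  have hP1 : (P.filter fun p => p.2 < B1).card ≤ B1 ^ 2 := by
    have h1 : (P.filter fun p => p.2 < B1) ⊆ (Finset.range B1) ×ˢ (Finset.range B1) := by
      intro p hp
      rw [Finset.mem_filter] at hp
      obtain ⟨_, m, hm⟩ := hP p hp.1
      have h2 := hm.hab
      rw [Finset.mem_product, Finset.mem_range, Finset.mem_range]
      omega
    have h2 := Finset.card_le_card h1
    rw [Finset.card_product, Finset.card_range] at h2
    rw [sq]
    exact h2
  set P2 := P.filter fun p => ¬ p.2 < B1 with hP2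
  have hmem : ∀ p : {p // p ∈ P2}, p.1.2 ≤ X ∧ p.1.1 < p.1.2 ∧ ∃ n d : ℕ, max N0 (max N1 1) ≤ n ∧
      p.1.1 + p.1.2 + 1 = d * (conv s n).1 ∧ p.1.2 - p.1.1 = d * (conv s n).2 ∧
      |(d : ℝ) ^ 2 - Real.sinh s / 6 * quot s n - Real.sinh s / 3 / quot s n| ≤ C / (quot s n : ℝ) ^ 3 := by
    rintro ⟨p, hp⟩
    rw [hP2, Finset.mem_filter] at hp
    obtain ⟨h1, m, hm⟩ := hP p hp.1
    exact ⟨h1, hm.hab, hB1 p.1 p.2 m (not_lt.1 hp.2) hm⟩
  choose hpX hpab nn dd hnn hU hV hnear using hmem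
  have hinj : Function.Injective nn := by
    intro p p' h
    have h2 := hnear p'
    rw [← h] at h2
    have hnp := hnear p
    have h3 : dd p = dd p' := by
      have hq : 2 * nn p + 1 ≤ quot s (nn p) := quot_ge hs _
      have hqr : (N1 : ℝ) + 1 ≤ (quot s (nn p) : ℝ) := by
        have : N1 + 1 ≤ quot s (nn p) := by
          have := hnn p
          omega
        exact_mod_cast this
      have hq1 : (1 : ℝ) ≤ (quot s (nn p) : ℝ) := by
        have : (0 : ℝ) ≤ N1 := Nat.cast_nonneg _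
        linarith
      have hsm : C / (quot s (nn p) : ℝ) ^ 3 < 1 / 2 := by
        rw [div_lt_div_iff₀ (by positivity) (by norm_num)]
        have h4 : (quot s (nn p) : ℝ) ≤ (quot s (nn p) : ℝ) ^ 3 := le_self_pow₀ hq1 (by norm_num)
        linarith
      rw [abs_le] at hnp h2
      have h5 : (dd p : ℝ) ^ 2 < (dd p' : ℝ) ^ 2 + 1 := by linarith [hnp.2, h2.1]
      have h6 : (dd p' : ℝ) ^ 2 < (dd p : ℝ) ^ 2 + 1 := by linarith [h2.2, hnp.1]
      have h7 : dd p ^ 2 < dd p' ^ 2 + 1 := by exact_mod_cast h5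
      have h8 : dd p' ^ 2 < dd p ^ 2 + 1 := by exact_mod_cast h6
      have h9 : dd p ^ 2 = dd p' ^ 2 := by omega
      exact (pow_left_inj₀ (Nat.zero_le _) (Nat.zero_le _) two_ne_zero).1 h9
    have h4 := hU p
    have h5 := hU p'
    have h6 := hV p
    have h7 := hV p'
    rw [← h, ← h3] at h5 h7
    have k1 := hpab p
    have k2 := hpab p'
    have h8 : p.1.1 = p'.1.1 := by omega
    have h9 : p.1.2 = p'.1.2 := by omega
    exact Subtype.ext (Prod.ext h8 h9)
  set S := P2.attach.image nn with hS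
  have hcard : S.card = P2.card := by
    rw [hS, Finset.card_image_of_injective _ hinj, Finset.card_attach]
  have hSmem : ∀ x ∈ S, ∃ p, nn p = x := by
    intro x hx
    rw [hS, Finset.mem_image] at hx
    obtain ⟨p, -, hp⟩ := hx
    exact ⟨p, hp⟩
  have hS1 : ∀ x ∈ S, 1 ≤ x := by
    intro x hx
    obtain ⟨p, rfl⟩ := hSmem x hx
    have := hnn p
    omega
  have hS3 : ∀ x ∈ S, ∀ y ∈ S, ∀ z ∈ S, x < y → y < z → (2 * x + 1) ^ 39 ≤ (2 * z + 1) ^ 38 := by
    intro x hx y hy z hz hxy hyz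
    obtain ⟨p, rfl⟩ := hSmem x hx
    obtain ⟨p', rfl⟩ := hSmem y hy
    obtain ⟨p'', rfl⟩ := hSmem z hz
    apply quot_pow hs
    have h1 := quot_ge hs (nn p)
    have h2 := hnn p
    refine hN0 (quot s (nn p)) (quot s (nn p')) (quot s (nn p'')) (dd p) (dd p') (dd p'') (by omega)
      (quot_lt hs hxy) (quot_lt hs hyz) ?_ ?_ ?_
    · exact_mod_cast hnear p
    · exact_mod_cast hnear p'
    · exact_mod_cast hnear p''
  have hScard : (S.card : ℝ) ≤
      2 + 2 * (Real.log 4 + Real.log (Real.log (Real.log X))) / Real.log ((39 : ℝ) / 38) := by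
    rcases Nat.eq_zero_or_pos S.card with h0 | h0
    · rw [h0]
      have : 0 ≤ 2 * (Real.log 4 + Real.log (Real.log (Real.log X))) / Real.log ((39 : ℝ) / 38) := by
        have : 0 < Real.log 4 := Real.log_pos (by norm_num)
        apply div_nonneg _ hL.le
        linarith
      push_cast
      linarith
    · obtain ⟨n, hn⟩ : ∃ n : ℕ, n = (S.card - 1) / 2 := ⟨_, rfl⟩
      obtain ⟨x, hx, hx2⟩ := card_growth n S hS1 hS3 (by omega)
      have hx1 := hS1 x hx
      obtain ⟨p, rfl⟩ := hSmem x hx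
      have hd1 : 1 ≤ dd p := by
        rcases Nat.eq_zero_or_pos (dd p) with h | h
        · have h1 := hV p
          have h2 := hpab p
          rw [h, zero_mul] at h1
          omega
        · exact h
      have hcX : (conv s (nn p)).2 ≤ X := by
        have h1 := hV p
        have h2 := hpX p
        have h3 : 1 * (conv s (nn p)).2 ≤ dd p * (conv s (nn p)).2 := Nat.mul_le_mul_right _ hd1
        omega
      have h1 := log_boundS hs hX hx1 hcX
      have h2 := hx2.trans h1
      have h3 := Real.log_le_log (by positivity) h2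
      rw [Real.log_pow, Real.log_mul (by norm_num) (by linarith)] at h3
      have h4 : (n : ℝ) ≤ (Real.log 4 + Real.log (Real.log (Real.log X))) / Real.log ((39 : ℝ) / 38) := by
        rw [le_div_iff₀ hL]
        exact h3
      have h5 : (S.card : ℝ) ≤ 2 * n + 2 := by
        have : S.card ≤ 2 * n + 2 := by omega
        exact_mod_cast this
      have h6 : 2 * (Real.log 4 + Real.log (Real.log (Real.log X))) / Real.log ((39 : ℝ) / 38) =
          2 * ((Real.log 4 + Real.log (Real.log (Real.log X))) / Real.log ((39 : ℝ) / 38)) := by ring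
      rw [h6]
      linarith
  have hfin : (P.card : ℝ) ≤ (B1 : ℝ) ^ 2 +
      (2 + 2 * (Real.log 4 + Real.log (Real.log (Real.log X))) / Real.log ((39 : ℝ) / 38)) := by
    rw [hcard] at hScard
    have h1 : (P.card : ℝ) = ((P.filter fun p => p.2 < B1).card : ℝ) + (P2.card : ℝ) := by
      exact_mod_cast hsplit
    have h2 : (((P.filter fun p => p.2 < B1).card : ℕ) : ℝ) ≤ (B1 : ℝ) ^ 2 := by exact_mod_cast hP1
    linarith
  refine hfin.trans ?_
  have h7 : 0 < Real.log 4 := Real.log_pos (by norm_num)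
  set K : ℝ := (B1 : ℝ) ^ 2 + 2 + 2 * Real.log 4 / Real.log ((39 : ℝ) / 38) with hK
  have hK0 : 0 ≤ K := by positivity
  have h8 : K ≤ K / Real.log (Real.log (Real.log 16)) * Real.log (Real.log (Real.log X)) := by
    have : K / Real.log (Real.log (Real.log 16)) * Real.log (Real.log (Real.log 16)) ≤
        K / Real.log (Real.log (Real.log 16)) * Real.log (Real.log (Real.log X)) :=
      mul_le_mul_of_nonneg_left hlllX (by positivity)
    rw [div_mul_cancel₀ _ hl3.ne'] at this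
    exact this
  have h9 : (B1 : ℝ) ^ 2 + (2 + 2 * (Real.log 4 + Real.log (Real.log (Real.log X))) /
      Real.log ((39 : ℝ) / 38)) =
      K + 2 / Real.log ((39 : ℝ) / 38) * Real.log (Real.log (Real.log X)) := by
    rw [hK]
    ring
  rw [h9, add_mul]
  linarith

end Pool.Agent.Padt
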