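import Mathlib

/-!
# Padé approximants of `e`
-/

set_option autoImplicit false

namespace Pool.Agent.Padt

open Real

/-- The numerators `1, 3, 19, 193, …` of the diagonal Padé approximants of `e`. -/
def P : ℕ → ℤ
  | 0 => 1
  | 1 => 3
  | (n + 2) => (4 * n + 6) * P (n + 1) + P n

/-- The denominators `1, 1, 7, 71, …` of the diagonal Padé approximants of `e`. -/
def Q : ℕ → ℤ
  | 0 => 1
  | 1 => 1
  | (n + 2) => (4 * n + 6) * Q (n + 1) + Q n

noncomputable def f (n : ℕ) (x : ℝ) : ℝ := (x * (1 - x)) ^ n / (n.factorial : ℝ)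

noncomputable def R (n : ℕ) : ℝ := ∫ x in (0:ℝ)..1, f n x * exp x

theorem f_deriv (n : ℕ) (x : ℝ) : HasDerivAt (f (n + 1)) ((1 - 2 * x) * f n x) x := by
  have h1 : HasDerivAt (fun x : ℝ => x * (1 - x)) (1 - 2 * x) x := by
    have h := (hasDerivAt_id x).mul ((hasDerivAt_id x).const_sub 1)
    refine h.congr_deriv ?_
    simp only [id]
    ring
  have h2 := (h1.pow (n + 1)).div_const (((n + 1).factorial : ℕ) : ℝ)
  refine h2.congr_deriv ?_
  unfold f
  have h3 : ((n.factorial : ℕ) : ℝ) ≠ 0 := by exact_mod_cast n.factorial_ne_zero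
  have h4 : (((n + 1).factorial : ℕ) : ℝ) = (n + 1) * (n.factorial : ℝ) := by
    rw [Nat.factorial_succ]; push_cast; ring
  have h5 : ((n : ℝ) + 1) ≠ 0 := by positivity
  rw [h4]
  simp only [Nat.add_sub_cancel]
  push_cast
  field_simp

theorem f_sq (n : ℕ) (x : ℝ) : (1 - 2 * x) ^ 2 * f n x = f n x - 4 * (n + 1) * f (n + 1) x := by
  unfold f
  have h3 : ((n.factorial : ℕ) : ℝ) ≠ 0 := by exact_mod_cast n.factorial_ne_zero
  have h4 : (((n + 1).factorial : ℕ) : ℝ) = (n + 1) * (n.factorial : ℝ) := by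
    rw [Nat.factorial_succ]; push_cast; ring
  have h5 : ((n : ℝ) + 1) ≠ 0 := by positivity
  rw [h4, pow_succ]
  field_simp
  ring

theorem f_cont (n : ℕ) : Continuous (f n) := by
  unfold f
  fun_prop

theorem R_int (n : ℕ) : IntervalIntegrable (fun x => f n x * exp x) MeasureTheory.volume 0 1 :=
  ((f_cont n).mul Real.continuous_exp).intervalIntegrable _ _

theorem R_rec (n : ℕ) : R (n + 2) = R n - (4 * n + 6) * R (n + 1) := by
  have hd : ∀ x : ℝ, HasDerivAt (fun x => ((1 - 2 * x) * f (n + 1) x - f (n + 2) x) * exp x)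
      (f n x * exp x - (4 * n + 6) * (f (n + 1) x * exp x) - f (n + 2) x * exp x) x := by
    intro x
    have h1 : HasDerivAt (fun x : ℝ => 1 - 2 * x) (-2) x := by
      have h := ((hasDerivAt_id x).const_mul 2).const_sub 1
      refine h.congr_deriv ?_
      ring
    have h2 := ((h1.mul (f_deriv n x)).sub (f_deriv (n + 1) x)).mul (Real.hasDerivAt_exp x)
    refine h2.congr_deriv ?_
    have h3 := f_sq n x
    simp only [Pi.mul_apply, Pi.sub_apply]
    linear_combination exp x * h3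
  have h0 : ∫ x in (0:ℝ)..1, (f n x * exp x - (4 * n + 6) * (f (n + 1) x * exp x) - f (n + 2) x * exp x) = 0 := by
    rw [intervalIntegral.integral_eq_sub_of_hasDerivAt (fun x _ => hd x)]
    · unfold f
      simp
    · exact (((f_cont n).mul Real.continuous_exp).sub
        (continuous_const.mul ((f_cont (n + 1)).mul Real.continuous_exp))).sub
        ((f_cont (n + 2)).mul Real.continuous_exp) |>.intervalIntegrable _ _
  rw [intervalIntegral.integral_sub ((R_int n).sub ((R_int (n + 1)).const_mul _)) (R_int (n + 2)),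
    intervalIntegral.integral_sub (R_int n) ((R_int (n + 1)).const_mul _),
    intervalIntegral.integral_const_mul] at h0
  unfold R
  linarith

theorem R_zero : R 0 = exp 1 - 1 := by
  unfold R f
  simp [integral_exp]

theorem R_one : R 1 = 3 - exp 1 := by
  have hd : ∀ x : ℝ, HasDerivAt (fun x => (-x ^ 2 + 3 * x - 3) * exp x) (f 1 x * exp x) x := by
    intro x
    have h1 : HasDerivAt (fun x : ℝ => -x ^ 2 + 3 * x - 3) (-(2 * x) + 3) x := by
      have h := (((hasDerivAt_pow 2 x).neg).add ((hasDerivAt_id x).const_mul 3)).sub_const 3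
      refine h.congr_deriv ?_
      simp
    refine (h1.mul (Real.hasDerivAt_exp x)).congr_deriv ?_
    unfold f
    simp
    ring
  unfold R
  rw [intervalIntegral.integral_eq_sub_of_hasDerivAt (fun x _ => hd x) (R_int 1)]
  simp
  ring

theorem R_eq : ∀ n : ℕ, R n = (-1) ^ n * (exp 1 * Q n - P n)
  | 0 => by rw [R_zero]; simp [P, Q]
  | 1 => by rw [R_one]; simp [P, Q]
  | (n + 2) => by
    rw [R_rec, R_eq n, R_eq (n + 1), P, Q]
    push_cast
    ring

theorem R_pos (n : ℕ) : 0 < R n := by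
  unfold R
  refine intervalIntegral.intervalIntegral_pos_of_pos_on (R_int n) (fun x hx => ?_) one_pos
  have h1 : 0 < x * (1 - x) := mul_pos hx.1 (by linarith [hx.2])
  unfold f
  positivity

theorem Q_pos : ∀ n : ℕ, 0 < Q n
  | 0 => by simp [Q]
  | 1 => by simp [Q]
  | (n + 2) => by
    have h1 := Q_pos n
    have h2 := Q_pos (n + 1)
    rw [Q]
    positivity

theorem Q_succ (n : ℕ) : Q (n + 2) = (4 * n + 6) * Q (n + 1) + Q n := by rw [Q]

theorem P_succ (n : ℕ) : P (n + 2) = (4 * n + 6) * P (n + 1) + P n := by rw [P]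

theorem casorati : ∀ n : ℕ, (Q (n + 1) : ℝ) * R n + Q n * R (n + 1) = 2
  | 0 => by rw [R_zero, R_one]; simp [Q]; ring
  | (n + 1) => by
    have h := casorati n
    rw [R_rec, Q_succ]
    push_cast
    linarith

theorem det : ∀ n : ℕ, P n * Q (n + 1) - P (n + 1) * Q n = (-1) ^ (n + 1) * 2
  | 0 => by simp [P, Q]
  | (n + 1) => by
    have h := det n
    rw [P_succ, Q_succ, pow_succ]
    linarith

theorem odd_PQ : ∀ n : ℕ, Odd (P n) ∧ Odd (Q n) ∧ Odd (P (n + 1)) ∧ Odd (Q (n + 1))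
  | 0 => by simp [P, Q]; decide
  | (n + 1) => by
    obtain ⟨h1, h2, h3, h4⟩ := odd_PQ n
    refine ⟨h3, h4, ?_, ?_⟩
    · rw [P_succ]
      refine Even.add_odd (Even.mul_right ?_ _) h1
      exact ⟨2 * n + 3, by ring⟩
    · rw [Q_succ]
      refine Even.add_odd (Even.mul_right ?_ _) h2
      exact ⟨2 * n + 3, by ring⟩

theorem coprime_PQ (n : ℕ) : IsCoprime (P n) (Q n) := by
  rw [Int.isCoprime_iff_gcd_eq_one]
  have h1 : (Int.gcd (P n) (Q n) : ℤ) ∣ (-1) ^ (n + 1) * 2 := by
    rw [← det n]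
    exact dvd_sub (Dvd.dvd.mul_right (Int.gcd_dvd_left _ _) _)
      (Dvd.dvd.mul_left (Int.gcd_dvd_right _ _) _)
  have h2 : (Int.gcd (P n) (Q n) : ℤ) ∣ 2 := by
    rcases neg_one_pow_eq_or ℤ (n + 1) with h | h
    · rwa [h, one_mul] at h1
    · rw [h, neg_one_mul, dvd_neg] at h1
      exact h1
  have h3 : Int.gcd (P n) (Q n) ∣ 2 := by exact_mod_cast h2
  rcases (Nat.dvd_prime Nat.prime_two).1 h3 with h | h
  · exact h
  · exfalso
    have h5 : (2 : ℤ) ∣ Q n := by
      have h6 := Int.gcd_dvd_right (P n) (Q n)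
      rw [h] at h6
      exact_mod_cast h6
    exact (Int.not_even_iff_odd.2 (odd_PQ n).2.1) (even_iff_two_dvd.2 h5)

theorem Q_lt (n : ℕ) : 6 * Q (n + 1) < Q (n + 2) := by
  rw [Q_succ]
  have h1 := Q_pos n
  have h2 := Q_pos (n + 1)
  nlinarith

theorem pow_le_Q : ∀ n : ℕ, (6 : ℤ) ^ n ≤ Q (n + 1)
  | 0 => by simp [Q]
  | (n + 1) => by
    have h := pow_le_Q n
    have h2 := Q_lt n
    rw [pow_succ]
    linarith

end Pool.Agent.Padt
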