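import Pool.Agent.Padt.Pade

/-!
# The size of `Q n * R n`
-/

set_option autoImplicit false

namespace Pool.Agent.Padt

open Real

theorem inv_close {A v N : ℝ} (hN : 1 ≤ N) (hA : N ≤ A) (hv : 0 ≤ v) (hv2 : v ≤ 1 / N) :
    |1 / (A + v) - 1 / A| ≤ 1 / N ^ 3 := by
  have hA0 : 0 < A := by linarith
  have e : 1 / (A + v) - 1 / A = -(v / (A * (A + v))) := by
    field_simp
    ring
  rw [e, abs_neg, abs_of_nonneg (by positivity)]
  have h1 : N * N ≤ A * (A + v) := mul_le_mul hA (by linarith) (by linarith) (by linarith)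
  calc v / (A * (A + v)) ≤ (1 / N) / (N * N) := div_le_div₀ (by positivity) hv2 (by positivity) h1
    _ = 1 / N ^ 3 := by field_simp

theorem ratio (m : ℕ) {N : ℝ} (hN : N = 2 * (m : ℝ) + 9) :
    |(Q (m + 5) : ℝ) / Q (m + 4) + R (m + 5) / R (m + 4) - (2 * N + 1 / N)| ≤ 10 / N ^ 3 ∧
    (Q (m + 5) : ℝ) / Q (m + 4) ≤ 2 * N + 1 ∧ 2 * N ≤ (Q (m + 5) : ℝ) / Q (m + 4) := by
  have hm : (0 : ℝ) ≤ m := Nat.cast_nonneg m
  obtain ⟨q1, hq1⟩ : ∃ x : ℝ, x = Q (m + 1) := ⟨_, rfl⟩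
  obtain ⟨q2, hq2⟩ : ∃ x : ℝ, x = Q (m + 2) := ⟨_, rfl⟩
  obtain ⟨q3, hq3⟩ : ∃ x : ℝ, x = Q (m + 3) := ⟨_, rfl⟩
  obtain ⟨q4, hq4⟩ : ∃ x : ℝ, x = Q (m + 4) := ⟨_, rfl⟩
  obtain ⟨q5, hq5⟩ : ∃ x : ℝ, x = Q (m + 5) := ⟨_, rfl⟩
  have e5 : q5 = (4 * m + 18) * q4 + q3 := by
    rw [hq5, hq4, hq3, Q_succ (m + 3)]; push_cast; ring
  have e4 : q4 = (4 * m + 14) * q3 + q2 := by
    rw [hq4, hq3, hq2, Q_succ (m + 2)]; push_cast; ring
  have e3 : q3 = (4 * m + 10) * q2 + q1 := by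
    rw [hq3, hq2, hq1, Q_succ (m + 1)]; push_cast; ring
  have p1 : 0 < q1 := by rw [hq1]; exact_mod_cast Q_pos _
  have p2 : 0 < q2 := by rw [hq2]; exact_mod_cast Q_pos _
  have p3 : 0 < q3 := by rw [hq3]; exact_mod_cast Q_pos _
  have p4 : 0 < q4 := by rw [hq4]; exact_mod_cast Q_pos _
  obtain ⟨r4, hr4⟩ : ∃ x : ℝ, x = R (m + 4) := ⟨_, rfl⟩
  obtain ⟨r5, hr5⟩ : ∃ x : ℝ, x = R (m + 5) := ⟨_, rfl⟩
  obtain ⟨r6, hr6⟩ : ∃ x : ℝ, x = R (m + 6) := ⟨_, rfl⟩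
  obtain ⟨r7, hr7⟩ : ∃ x : ℝ, x = R (m + 7) := ⟨_, rfl⟩
  have f4 : r4 = (4 * m + 22) * r5 + r6 := by
    rw [hr4, hr5, hr6, R_rec (m + 4)]; push_cast; ring
  have f5 : r5 = (4 * m + 26) * r6 + r7 := by
    rw [hr5, hr6, hr7, R_rec (m + 5)]; push_cast; ring
  have s4 : 0 < r4 := by rw [hr4]; exact R_pos _
  have s5 : 0 < r5 := by rw [hr5]; exact R_pos _
  have s6 : 0 < r6 := by rw [hr6]; exact R_pos _
  have s7 : 0 < r7 := by rw [hr7]; exact R_pos _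
  rw [← hq4, ← hq5, ← hr4, ← hr5]
  have hN9 : 9 ≤ N := by rw [hN]; linarith
  obtain ⟨v, hv⟩ : ∃ v : ℝ, v = q2 / q3 := ⟨_, rfl⟩
  obtain ⟨t, ht⟩ : ∃ v : ℝ, v = r6 / r5 := ⟨_, rfl⟩
  have hv0 : 0 ≤ v := by rw [hv]; positivity
  have ht0 : 0 ≤ t := by rw [ht]; positivity
  have hvN : v ≤ 1 / N := by
    rw [hv, div_le_div_iff₀ p3 (by linarith), one_mul, e3, hN]
    nlinarith
  have htN : t ≤ 1 / N := by
    rw [ht, div_le_div_iff₀ s5 (by linarith), one_mul, f5, hN]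
    nlinarith
  have hu : q3 / q4 = 1 / ((2 * N - 4) + v) := by
    have h1 : (2 * N - 4) + v = q4 / q3 := by
      rw [hv, hN, e4, add_div, mul_div_assoc, div_self p3.ne']
      ring
    rw [h1, one_div_div]
  have hz : r5 / r4 = 1 / ((2 * N + 4) + t) := by
    have h1 : (2 * N + 4) + t = r4 / r5 := by
      rw [ht, hN, f4, add_div, mul_div_assoc, div_self s5.ne']
      ring
    rw [h1, one_div_div]
  have hρ : q5 / q4 = 2 * N + q3 / q4 := by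
    rw [e5, hN, add_div, mul_div_assoc, div_self p4.ne']
    ring
  have hu0 : 0 ≤ q3 / q4 := by positivity
  have hu1 : q3 / q4 ≤ 1 := by
    rw [div_le_one p4, e4]
    nlinarith
  refine ⟨?_, by rw [hρ]; linarith, by rw [hρ]; linarith⟩
  have k1 := inv_close (A := 2 * N - 4) (by linarith) (by linarith) hv0 hvN
  have k2 := inv_close (A := 2 * N + 4) (by linarith) (by linarith) ht0 htN
  have k3 : |1 / (2 * N - 4) + 1 / (2 * N + 4) - 1 / N| ≤ 8 / N ^ 3 := by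
    have h1 : (0 : ℝ) < 2 * N - 4 := by linarith
    have h2 : (0 : ℝ) < 2 * N + 4 := by linarith
    have h3 : (0 : ℝ) < N ^ 2 - 4 := by nlinarith
    have e : 1 / (2 * N - 4) + 1 / (2 * N + 4) - 1 / N = 4 / (N * (N ^ 2 - 4)) := by
      have h4 : N - 2 ≠ 0 := by linarith
      have h5 : N + 2 ≠ 0 := by linarith
      have h6 : N ^ 2 - 4 = (N - 2) * (N + 2) := by ring
      have h7 : 2 * N - 4 = 2 * (N - 2) := by ring
      have h8 : 2 * N + 4 = 2 * (N + 2) := by ring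
      rw [h6, h7, h8]
      field_simp
      ring
    rw [e, abs_of_nonneg (by positivity), div_le_div_iff₀ (by positivity) (by positivity)]
    nlinarith
  rw [hρ, hu, hz]
  have e : 2 * N + 1 / (2 * N - 4 + v) + 1 / (2 * N + 4 + t) - (2 * N + 1 / N) =
      (1 / (2 * N - 4 + v) - 1 / (2 * N - 4)) + (1 / (2 * N + 4 + t) - 1 / (2 * N + 4)) +
        (1 / (2 * N - 4) + 1 / (2 * N + 4) - 1 / N) := by ring
  rw [e]
  refine (abs_add_three _ _ _).trans ?_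
  have e2 : 10 / N ^ 3 = 1 / N ^ 3 + 1 / N ^ 3 + 8 / N ^ 3 := by ring
  rw [e2]
  linarith

theorem Q_mono : Monotone Q := by
  refine monotone_nat_of_le_succ fun n => ?_
  rcases n with _ | n
  · simp [Q]
  · have h1 := Q_lt n
    have h2 := Q_pos (n + 1)
    linarith

theorem sinh_bounds : (0.38 : ℝ) ≤ sinh 1 / 3 ∧ sinh 1 / 3 ≤ (0.392 : ℝ) := by
  have h1 := Real.exp_one_gt_d9
  have h2 := Real.exp_one_lt_d9
  have h3 : exp (-1) = 1 / exp 1 := by rw [Real.exp_neg, one_div]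
  have h4 : 1 / exp 1 ≤ 1 / 2.7182818283 := one_div_le_one_div_of_le (by norm_num) h1.le
  have h5 : 1 / 2.7182818286 ≤ 1 / exp 1 := one_div_le_one_div_of_le (exp_pos _) h2.le
  rw [Real.sinh_eq, h3]
  constructor
  · have : (1 : ℝ) / 2.7182818283 ≤ 0.37 := by norm_num
    linarith
  · have : (0.366 : ℝ) ≤ 1 / 2.7182818286 := by norm_num
    linarith

theorem big (C : ℝ) (hC : 0 < C) (K0 : ℕ) : ∃ K : ℕ, K0 ≤ K ∧ ∀ n : ℕ, K ≤ n →
    C * (2 * (n : ℝ) + 2) ^ 4 ≤ (Q n : ℝ) ^ 2 := by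
  have h1 := tendsto_pow_const_div_const_pow_of_one_lt 4 (by norm_num : (1 : ℝ) < 36)
  have h2 : (0 : ℝ) < 1 / (36 * 256 * C) := by positivity
  obtain ⟨K, hK⟩ := (Filter.eventually_atTop.1 (h1.eventually_lt_const h2))
  refine ⟨max K (max K0 1), le_trans (le_max_left _ _) (le_max_right _ _), fun n hn => ?_⟩
  have hn1 : 1 ≤ n := le_trans (le_trans (le_max_right _ _) (le_max_right _ _)) hn
  have h3 := hK n (le_trans (le_max_left _ _) hn)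
  rw [div_lt_iff₀ (by positivity)] at h3
  obtain ⟨k, rfl⟩ : ∃ k, n = k + 1 := ⟨n - 1, by omega⟩
  have h4 : ((6 : ℝ)) ^ k ≤ Q (k + 1) := by exact_mod_cast pow_le_Q k
  have h5 : (36 : ℝ) ^ k ≤ (Q (k + 1) : ℝ) ^ 2 := by
    calc (36 : ℝ) ^ k = ((6 : ℝ) ^ k) ^ 2 := by rw [← pow_mul, mul_comm k 2, pow_mul]; norm_num
      _ ≤ _ := pow_le_pow_left₀ (by positivity) h4 2
  refine le_trans ?_ h5
  have hk : (0 : ℝ) ≤ k := Nat.cast_nonneg k
  push_cast at h3 ⊢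
  have h6 : (2 * ((k : ℝ) + 1) + 2) ^ 4 ≤ (4 * ((k : ℝ) + 1)) ^ 4 :=
    pow_le_pow_left₀ (by positivity) (by linarith) 4
  have h7 : C * (256 * ((k : ℝ) + 1) ^ 4) ≤ 36 ^ k := by
    have h8 : 1 / (36 * 256 * C) * 36 ^ (k + 1) = 36 ^ k / (256 * C) := by
      rw [pow_succ]
      field_simp
    rw [h8, lt_div_iff₀ (by positivity)] at h3
    linarith
  calc C * (2 * ((k : ℝ) + 1) + 2) ^ 4 ≤ C * (4 * ((k : ℝ) + 1)) ^ 4 :=
        mul_le_mul_of_nonneg_left h6 hC.le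
    _ = C * (256 * ((k : ℝ) + 1) ^ 4) := by ring
    _ ≤ 36 ^ k := h7

end Pool.Agent.Padt
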