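import Pool.Agent.Padt.Ratio

/-!
# Good approximations of `e` with the constant `sinh 1 / 3` are multiples of Padé approximants
-/

set_option autoImplicit false

namespace Pool.Agent.Padt

open Real

/-- the index with `Q n ≤ q < Q (n + 1)` -/
theorem exists_index (K : ℕ) (q : ℤ) (h : Q K ≤ q) : ∃ n : ℕ, K ≤ n ∧ Q n ≤ q ∧ q < Q (n + 1) := by
  have hex : ∃ k, q < Q k := by
    obtain ⟨k, hk⟩ := pow_unbounded_of_one_lt q (by norm_num : (1 : ℤ) < 6)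
    exact ⟨k + 1, hk.trans_le (pow_le_Q k)⟩
  classical
  have h1 := Nat.find_spec hex
  have h2 : ∀ m, m < Nat.find hex → Q m ≤ q := fun m hm => not_lt.1 (Nat.find_min hex hm)
  have h3 : K < Nat.find hex := by
    by_contra hcon
    exact absurd (h1.trans_le (Q_mono (not_lt.1 hcon))) (not_lt_of_ge h)
  obtain ⟨n, hn⟩ : ∃ n, Nat.find hex = n + 1 := ⟨Nat.find hex - 1, by omega⟩
  refine ⟨n, by omega, h2 n (by omega), ?_⟩
  rw [← hn]
  exact h1

/-- the main step, with all sizes as hypotheses -/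
theorem delta_zero {c ρ y N r w t ε ε' η s : ℝ} {Δ Δ' : ℤ} (hN : 1000 ≤ N) (hc1 : 0.38 ≤ c)
    (hc2 : c ≤ 0.392) (hρ1 : 2 * N ≤ ρ) (hρ2 : ρ ≤ 2 * N + 1) (hy : 0 < y) (hw : w * (ρ + y) = 2)
    (hr : 1 ≤ r) (ht : t * r = ρ) (ht1 : 1 < t) (hs : s = 1 ∨ s = -1) (hε : |ε| ≤ 1 / (4 * N))
    (hη : |η| ≤ 2 / N)
    (h1 : (Δ : ℝ) = c / r + s * (r * w) + ε) (h2 : (Δ' : ℝ) = c * t + η) (hy1 : y ≤ 1) :
    Δ = 0 ∧ s = -1 := by
  have hρ0 : 0 < ρ := by linarith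
  have hρy : 0 < ρ + y := by linarith
  have hw0 : 0 < w := by
    by_contra hcon
    have : w * (ρ + y) ≤ 0 := mul_nonpos_of_nonpos_of_nonneg (not_lt.1 hcon) hρy.le
    linarith
  have hηs : |η| ≤ 0.002 := hη.trans (by rw [div_le_iff₀ (by linarith)]; linarith)
  have hεs : |ε| ≤ 0.001 := hε.trans (by rw [div_le_iff₀ (by linarith)]; linarith)
  rw [abs_le] at hηs hεs
  have ht0 : 0 < t := by linarith
  have hr0 : 0 < r := by linarith
  -- `Δ' ≥ 1`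
  have hΔ' : 1 ≤ Δ' := by
    have h3 : (0 : ℝ) < Δ' := by rw [h2]; nlinarith
    have h4 : 0 < Δ' := by exact_mod_cast h3
    omega
  have hct : 1 - 0.002 ≤ c * t := by
    have h3 : (1 : ℝ) ≤ Δ' := by exact_mod_cast hΔ'
    rw [h2] at h3
    linarith
  -- `r w ≤ 2 / t`
  have hrw : r * w * t ≤ 2 := by
    have : r * w * t = w * ρ := by rw [← ht]; ring
    rw [this]
    nlinarith
  have hrw0 : 0 < r * w := by positivity
  have hrw2 : r * w ≤ 0.79 := by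
    by_contra hcon
    have h3 : 0.79 < r * w := not_le.1 hcon
    have h4 : 0.79 * t < r * w * t := mul_lt_mul_of_pos_right h3 ht0
    nlinarith
  have hcr : c / r ≤ c := div_le_self (by linarith) hr
  have hcr0 : 0 < c / r := by positivity
  have hΔ1 : Δ < 2 := by
    have h3 : (Δ : ℝ) < 2 := by
      rw [h1]
      rcases hs with rfl | rfl <;> nlinarith
    exact_mod_cast h3
  have hΔ2 : -1 < Δ := by
    have h3 : (-1 : ℝ) < Δ := by
      rw [h1]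
      rcases hs with rfl | rfl <;> nlinarith
    exact_mod_cast h3
  have hΔ01 : Δ = 0 ∨ Δ = 1 := by omega
  rcases hΔ01 with h0 | h0
  · refine ⟨h0, ?_⟩
    rcases hs with rfl | rfl
    · exfalso
      rw [h0, Int.cast_zero, one_mul] at h1
      have h3 : w ≤ r * w := by nlinarith
      have h4 : 1 / (4 * N) < w := by
        rw [div_lt_iff₀ (by linarith)]
        have h5 : ρ + y ≤ 4 * N - 1 := by linarith
        nlinarith
      have h5 := neg_le_of_abs_le hε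
      linarith
    · rfl
  · exfalso
    rw [h0, Int.cast_one] at h1
    rcases hs with rfl | rfl
    · have h3 : 0.6 ≤ r * w := by linarith
      have h4 : t ≤ 3.4 := by
        by_contra hcon
        have h5 : 3.4 < t := not_le.1 hcon
        have h6 : 0.6 * 3.4 < r * w * t := by nlinarith
        norm_num at h6
        linarith
      have h5 : c / r ≤ 0.01 := by
        rw [div_le_iff₀ hr0]
        have h6 : ρ ≤ 3.4 * r := by rw [← ht]; nlinarith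
        nlinarith
      linarith
    · linarith

theorem struct (C : ℝ) (hC : 0 < C) (K0 : ℕ) : ∃ K : ℕ, ∀ p q : ℤ, Q K ≤ q →
    |(p : ℝ) - exp 1 * q - (sinh 1 / 3) / q| ≤ C / (q : ℝ) ^ 3 →
    ∃ (n : ℕ) (g : ℤ), K0 ≤ n ∧ 0 < g ∧ q = g * Q n ∧ p = g * P n ∧ Odd n ∧
      |(g : ℝ) ^ 2 - (sinh 1 / 3) * (2 * n + 1) - (sinh 1 / 6) / (2 * n + 1)| ≤
        3 / (2 * (n : ℝ) + 1) ^ 3 := by
  obtain ⟨K, hK0, hK⟩ := big C hC (max K0 1000)
  refine ⟨K, fun p q hq hpq => ?_⟩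
  obtain ⟨n, hKn, hn1, hn2⟩ := exists_index K q hq
  have hn1000 : 1000 ≤ n := le_trans (le_trans (le_max_right _ _) hK0) hKn
  have hnK0 : K0 ≤ n := le_trans (le_trans (le_max_left _ _) hK0) hKn
  have hbig := hK n hKn
  obtain ⟨m, rfl⟩ : ∃ m, n = m + 4 := ⟨n - 4, by omega⟩
  obtain ⟨N, hN⟩ : ∃ N : ℝ, N = 2 * (m : ℝ) + 9 := ⟨_, rfl⟩
  obtain ⟨hr1, hr2, hr3⟩ := ratio m hN
  have hm : (996 : ℝ) ≤ m := by exact_mod_cast (by omega : 996 ≤ m)
  have hN1000 : 1000 ≤ N := by rw [hN]; linarith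
  have hN0 : 0 < N := by linarith
  have hN2 : 1000 * N ≤ N ^ 2 := by
    rw [sq]; exact mul_le_mul_of_nonneg_right hN1000 hN0.le
  have hN3 : N ^ 2 ≤ N ^ 3 := pow_le_pow_right₀ (by linarith) (by norm_num)
  obtain ⟨c, hc⟩ : ∃ c : ℝ, c = sinh 1 / 3 := ⟨_, rfl⟩
  have hcb := sinh_bounds
  rw [← hc] at hcb hpq
  obtain ⟨Qn, hQn⟩ : ∃ x : ℝ, x = (Q (m + 4) : ℝ) := ⟨_, rfl⟩
  obtain ⟨Qs, hQs⟩ : ∃ x : ℝ, x = (Q (m + 5) : ℝ) := ⟨_, rfl⟩
  obtain ⟨qr, hqr⟩ : ∃ x : ℝ, x = (q : ℝ) := ⟨_, rfl⟩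
  obtain ⟨pr, hpr⟩ : ∃ x : ℝ, x = (p : ℝ) := ⟨_, rfl⟩
  obtain ⟨ρ, hρ⟩ : ∃ x : ℝ, x = Qs / Qn := ⟨_, rfl⟩
  obtain ⟨y, hy⟩ : ∃ x : ℝ, x = R (m + 5) / R (m + 4) := ⟨_, rfl⟩
  have hQn0 : 0 < Qn := by rw [hQn]; exact_mod_cast Q_pos _
  have hQs0 : 0 < Qs := by rw [hQs]; exact_mod_cast Q_pos _
  have hR4 := R_pos (m + 4)
  have hR5 := R_pos (m + 5)
  have hR6 := R_pos (m + 6)
  have hy0 : 0 < y := by rw [hy]; positivity
  rw [← hQn, ← hQs, ← hρ, ← hy] at hr1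
  rw [← hQn, ← hQs, ← hρ] at hr2 hr3
  have hqQ : Qn ≤ qr := by rw [hQn, hqr]; exact_mod_cast hn1
  have hqQ2 : qr < Qs := by rw [hQs, hqr]; exact_mod_cast hn2
  have hq0 : 0 < qr := by linarith
  obtain ⟨δ, hδ⟩ : ∃ x : ℝ, x = pr - exp 1 * qr - c / qr := ⟨_, rfl⟩
  rw [← hpr, ← hqr, ← hδ] at hpq
  have hN4 : C / Qn ^ 2 ≤ 1 / N ^ 4 := by
    rw [div_le_div_iff₀ (by positivity) (by positivity), one_mul]
    have h1 : N ^ 4 ≤ (2 * ((m + 4 : ℕ) : ℝ) + 2) ^ 4 := by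
      apply pow_le_pow_left₀ hN0.le
      rw [hN]; push_cast; linarith
    calc C * N ^ 4 ≤ C * (2 * ((m + 4 : ℕ) : ℝ) + 2) ^ 4 := mul_le_mul_of_nonneg_left h1 hC.le
      _ ≤ Qn ^ 2 := by rw [hQn]; exact hbig
  -- sizes of the errors
  have hqδ : |qr * δ| ≤ 1 / N ^ 4 := by
    rw [abs_mul, abs_of_pos hq0]
    calc qr * |δ| ≤ qr * (C / qr ^ 3) := mul_le_mul_of_nonneg_left hpq hq0.le
      _ = C / qr ^ 2 := by field_simp
      _ ≤ C / Qn ^ 2 := by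
        apply div_le_div_of_nonneg_left hC.le (by positivity)
        exact pow_le_pow_left₀ hQn0.le hqQ 2
      _ ≤ 1 / N ^ 4 := hN4
  have hN14 : 1 / N ^ 4 ≤ 1 / (4 * N) := by
    apply one_div_le_one_div_of_le (by positivity)
    have h1 : 4 ≤ N ^ 3 := by linarith
    calc 4 * N ≤ N ^ 3 * N := mul_le_mul_of_nonneg_right h1 hN0.le
      _ = N ^ 4 := by ring
  have hε : |Qn * δ| ≤ 1 / (4 * N) := by
    refine le_trans ?_ (hqδ.trans hN14)
    rw [abs_mul, abs_mul, abs_of_pos hq0, abs_of_pos hQn0]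
    exact mul_le_mul_of_nonneg_right hqQ (abs_nonneg _)
  have hQsle : Qs ≤ (2 * N + 1) * qr := by
    have h1 : Qs = ρ * Qn := by rw [hρ]; field_simp
    rw [h1]
    exact mul_le_mul hr2 hqQ hQn0.le (by linarith)
  have hε2 : |Qs * δ| ≤ 1 / N := by
    have h1 : |Qs * δ| ≤ (2 * N + 1) * (1 / N ^ 4) := by
      calc |Qs * δ| = Qs * |δ| := by rw [abs_mul, abs_of_pos hQs0]
        _ ≤ (2 * N + 1) * qr * |δ| := mul_le_mul_of_nonneg_right hQsle (abs_nonneg _)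
        _ = (2 * N + 1) * |qr * δ| := by rw [abs_mul, abs_of_pos hq0]; ring
        _ ≤ (2 * N + 1) * (1 / N ^ 4) := mul_le_mul_of_nonneg_left hqδ (by linarith)
    refine h1.trans ?_
    rw [mul_one_div, div_le_div_iff₀ (by positivity) hN0, one_mul]
    have h2 : 2 * N + 1 ≤ N ^ 3 := by linarith
    calc (2 * N + 1) * N ≤ N ^ 3 * N := mul_le_mul_of_nonneg_right h2 hN0.le
      _ = N ^ 4 := by ring
  have hcas := casorati (m + 4)
  have hcas2 := casorati (m + 5)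
  rw [← hQn, ← hQs] at hcas
  rw [← hQs] at hcas2
  have hQR : qr * R (m + 5) ≤ 1 / N := by
    have h1 : (Q (m + 6) : ℝ) = (4 * m + 22) * Qs + Qn := by
      rw [hQn, hQs, Q_succ (m + 4)]; push_cast; ring
    have h2 : (Q (m + 5 + 1) : ℝ) * R (m + 5) ≤ 2 := by
      have : 0 < Qs * R (m + 5 + 1) := mul_pos hQs0 hR6
      linarith
    have h3 : (Q (m + 5 + 1) : ℝ) = (4 * m + 22) * Qs + Qn := h1
    rw [h3] at h2
    rw [le_div_iff₀ hN0, hN]
    have h4 : qr * R (m + 5) ≤ Qs * R (m + 5) := mul_le_mul_of_nonneg_right hqQ2.le hR5.le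
    have h5 : 0 < Qn * R (m + 5) := mul_pos hQn0 hR5
    have h6 : 0 < Qs * R (m + 5) := mul_pos hQs0 hR5
    have h7 : (2 * (m : ℝ) + 9) * (qr * R (m + 5)) ≤ (2 * (m : ℝ) + 9) * (Qs * R (m + 5)) :=
      mul_le_mul_of_nonneg_left h4 (by linarith)
    have h8 : ((4 * (m : ℝ) + 22) * Qs + Qn) * R (m + 5) = 2 * ((2 * (m : ℝ) + 9) * (Qs * R (m + 5))) +
      4 * (Qs * R (m + 5)) + Qn * R (m + 5) := by ring
    rw [h8] at h2
    linarith
  have hw : (Qn * R (m + 4)) * (ρ + y) = 2 := by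
    rw [hρ, hy, ← hcas]
    field_simp
  have hy1 : y ≤ 1 := by
    have h1 : R (m + 6) = R (m + 4) - (4 * ((m + 4 : ℕ) : ℝ) + 6) * R (m + 5) := R_rec (m + 4)
    rw [hy, div_le_one hR4]
    push_cast at h1
    have h2 : (4 * ((m : ℝ) + 4) + 6) * R (m + 5) = R (m + 5) + (4 * (m : ℝ) + 21) * R (m + 5) := by ring
    have h3 : 0 ≤ (4 * (m : ℝ) + 21) * R (m + 5) := mul_nonneg (by linarith) hR5.le
    rw [h2] at h1
    linarith
  have hsgn : ((-1 : ℝ)) ^ (m + 4) = 1 ∨ ((-1 : ℝ)) ^ (m + 4) = -1 := neg_one_pow_eq_or ℝ _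
  have hsq : ((-1 : ℝ)) ^ (m + 4) * ((-1 : ℝ)) ^ (m + 4) = 1 := by
    rcases hsgn with h | h <;> rw [h] <;> norm_num
  have hE4 : exp 1 * Qn - P (m + 4) = (-1) ^ (m + 4) * R (m + 4) := by
    have h1 := R_eq (m + 4)
    rw [← hQn] at h1
    rw [h1, ← mul_assoc, hsq, one_mul]
  have hE5 : exp 1 * Qs - P (m + 5) = -((-1) ^ (m + 4) * R (m + 5)) := by
    have h1 := R_eq (m + 5)
    rw [← hQs] at h1
    have h2 : ((-1 : ℝ)) ^ (m + 5) = -(-1) ^ (m + 4) := by rw [pow_succ]; ring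
    rw [h1, h2]
    have h3 : -((-1 : ℝ) ^ (m + 4) * (-(-1) ^ (m + 4) * (exp 1 * Qs - ↑(P (m + 5))))) =
      ((-1 : ℝ) ^ (m + 4) * (-1) ^ (m + 4)) * (exp 1 * Qs - ↑(P (m + 5))) := by ring
    rw [h3, hsq, one_mul]
  have hmain := delta_zero (c := c) (ρ := ρ) (y := y) (N := N) (r := qr / Qn)
    (w := Qn * R (m + 4)) (t := Qs / qr) (ε := Qn * δ) (ε' := 0)
    (η := Qs * δ + -((-1) ^ (m + 4) * (qr * R (m + 5)))) (s := (-1) ^ (m + 4))
    (Δ := p * Q (m + 4) - q * P (m + 4)) (Δ' := p * Q (m + 5) - q * P (m + 5)) hN1000 hcb.1 hcb.2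
    hr3 hr2 hy0 hw (by rw [one_le_div hQn0]; exact hqQ) (by rw [hρ]; field_simp)
    (by rw [one_lt_div hq0]; exact hqQ2) hsgn hε
    (by
      refine (abs_add_le _ _).trans ?_
      have h1 : |-((-1 : ℝ) ^ (m + 4) * (qr * R (m + 5)))| = qr * R (m + 5) := by
        rw [abs_neg, abs_mul, abs_pow, abs_neg, abs_one, one_pow, one_mul, abs_of_nonneg (by positivity)]
      rw [h1]
      have h2 : 2 / N = 1 / N + 1 / N := by ring
      rw [h2]
      linarith)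
    (by
      push_cast
      rw [← hpr, ← hqr, ← hQn]
      have h1 : pr * Qn - qr * P (m + 4) = Qn * (c / qr) + qr * (exp 1 * Qn - P (m + 4)) + Qn * δ := by
        rw [hδ]; ring
      rw [h1, hE4]
      field_simp)
    (by
      push_cast
      rw [← hpr, ← hqr, ← hQs]
      have h1 : pr * Qs - qr * P (m + 5) = Qs * (c / qr) + qr * (exp 1 * Qs - P (m + 5)) + Qs * δ := by
        rw [hδ]; ring
      rw [h1, hE5]
      ring) hy1
  obtain ⟨hΔ, hs⟩ := hmain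
  have hodd : Odd (m + 4) := by
    by_contra hcon
    rw [Nat.not_odd_iff_even] at hcon
    rw [hcon.neg_one_pow] at hs
    norm_num at hs
  have hdvd : Q (m + 4) ∣ q := by
    have h1 : Q (m + 4) ∣ q * P (m + 4) := ⟨p, by linarith⟩
    exact (coprime_PQ (m + 4)).symm.dvd_of_dvd_mul_right h1
  obtain ⟨g, hg⟩ := hdvd
  have hQZ := Q_pos (m + 4)
  have hgpos : 0 < g := by
    by_contra hcon
    have h1 : Q (m + 4) * g ≤ 0 := mul_nonpos_of_nonneg_of_nonpos hQZ.le (not_lt.1 hcon)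
    linarith
  have hp : p = g * P (m + 4) := by
    have h1 : Q (m + 4) * p = Q (m + 4) * (g * P (m + 4)) := by
      rw [hg] at hΔ
      linarith
    exact mul_left_cancel₀ hQZ.ne' h1
  refine ⟨m + 4, g, hnK0, hgpos, by rw [hg]; ring, hp, hodd, ?_⟩
  -- the size of `g`
  have hgr : qr = g * Qn := by rw [hqr, hg, hQn]; push_cast; ring
  have hgr0 : (0 : ℝ) < g := by exact_mod_cast hgpos
  have hcg : c - (g : ℝ) ^ 2 * (Qn * R (m + 4)) = -(qr * δ) := by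
    have h1 : pr * Qn - qr * P (m + 4) = Qn * (c / qr) + qr * (exp 1 * Qn - P (m + 4)) + Qn * δ := by
      rw [hδ]; ring
    have h2 : pr * Qn - qr * P (m + 4) = 0 := by
      rw [hpr, hqr, hQn]
      exact_mod_cast hΔ
    rw [h2, hE4, hs] at h1
    have h3 : Qn * (c / qr) = c / g := by rw [hgr]; field_simp
    rw [h3, hgr] at h1
    have h4 : (g : ℝ) * (c / g) = c := by field_simp
    have h5 : (g : ℝ) * 0 = g * (c / g + g * Qn * (-1 * R (m + 4)) + Qn * δ) := by rw [← h1]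
    rw [hgr]
    linear_combination -h5 - h4 + 0 * h4
  have hfin : (g : ℝ) ^ 2 - c * N - (c / 2) / N =
      (qr * δ) * ((ρ + y) / 2) + (c / 2) * (ρ + y - (2 * N + 1 / N)) := by
    have h1 : (g : ℝ) ^ 2 * (Qn * R (m + 4)) = c + qr * δ := by linarith
    have h2 : (g : ℝ) ^ 2 = (c + qr * δ) * ((ρ + y) / 2) := by
      rw [← h1]
      linear_combination (-(g : ℝ) ^ 2 / 2) * hw
    rw [h2]
    field_simp
    ring
  have hN21 : (2 * ((m + 4 : ℕ) : ℝ) + 1) = N := by rw [hN]; push_cast; ring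
  rw [hN21, ← hc, show sinh 1 / 6 = c / 2 by rw [hc]; ring, hfin]
  refine (abs_add_le _ _).trans ?_
  rw [abs_mul (qr * δ), abs_mul (c / 2), abs_of_nonneg (by linarith : 0 ≤ (ρ + y) / 2),
    abs_of_nonneg (by linarith : 0 ≤ c / 2)]
  have h1 : |qr * δ| * ((ρ + y) / 2) ≤ (1 / N ^ 4) * (N + 1) :=
    mul_le_mul hqδ (by linarith) (by linarith) (by positivity)
  have h2 : c / 2 * |ρ + y - (2 * N + 1 / N)| ≤ 0.196 * (10 / N ^ 3) :=
    mul_le_mul (by linarith) hr1 (abs_nonneg _) (by norm_num)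
  have h3 : (1 / N ^ 4) * (N + 1) ≤ 1.001 / N ^ 3 := by
    rw [one_div_mul_eq_div, div_le_div_iff₀ (by positivity) (by positivity)]
    have h4 : N + 1 ≤ 1.001 * N := by linarith
    calc (N + 1) * N ^ 3 ≤ 1.001 * N * N ^ 3 := mul_le_mul_of_nonneg_right h4 (by positivity)
      _ = 1.001 * N ^ 4 := by ring
  have h4 : 3 / N ^ 3 = 1.001 / N ^ 3 + 0.196 * (10 / N ^ 3) + 0.039 / N ^ 3 := by
    field_simp
    norm_num
  have h5 : 0 ≤ 0.039 / N ^ 3 := by positivity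
  rw [h4]
  linarith

end Pool.Agent.Padt
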