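import Pool.Agent.UIL.Triple

/-!
# The gap principle for the multipliers, for `s = 1` and `s = 2`
-/

set_option autoImplicit false

namespace Pool.Agent.Padt

open UIL

/-- gap principle for three indices (helper75's argument, with `g ^ 2` and the partial quotients for `2 b + 1` and
`2 a + 1`, and `sinh s / 6` for `e ^ s`) -/
theorem tripleS (s : ℕ) (hs : 1 ≤ s) (C : ℝ) (hC : 0 < C) : ∃ N0 : ℕ, ∀ (a1 a2 a3 : ℕ) (g1 g2 g3 : ℤ),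
    N0 ≤ a1 → a1 < a2 → a2 < a3 →
    |(g1 : ℝ) ^ 2 - (Real.sinh s / 6) * a1 - (Real.sinh s / 3) / a1| ≤ C / (a1 : ℝ) ^ 3 →
    |(g2 : ℝ) ^ 2 - (Real.sinh s / 6) * a2 - (Real.sinh s / 3) / a2| ≤ C / (a2 : ℝ) ^ 3 →
    |(g3 : ℝ) ^ 2 - (Real.sinh s / 6) * a3 - (Real.sinh s / 3) / a3| ≤ C / (a3 : ℝ) ^ 3 →
    a1 ^ 39 ≤ a3 ^ 38 := by
  obtain ⟨E, hE⟩ : ∃ E : ℝ, E = Real.sinh s / 6 := ⟨_, rfl⟩
  rw [← hE]
  obtain ⟨c, hc, hmeas⟩ := measure (2 * s) (by omega)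
  obtain ⟨σ, hσ⟩ : ∃ σ : ℝ, σ = Real.sinh s / 3 := ⟨_, rfl⟩
  rw [← hσ]
  have hσ0 : 0 < σ := by
    rw [hσ]
    have : 0 < Real.sinh s := Real.sinh_pos_iff.2 (by exact_mod_cast hs)
    positivity
  have hcosh : 2 * Real.cosh ((2 * s : ℕ) : ℝ) = 2 + 36 * σ ^ 2 := by
    push_cast
    rw [Real.cosh_two_mul, Real.cosh_sq, hσ]
    ring
  obtain ⟨K1, hK1⟩ : ∃ K1 : ℝ, K1 = 4 * C * (18 * σ ^ 2 + 3) * (σ + 1) ^ 5 := ⟨_, rfl⟩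
  have hK1pos : 0 < K1 := by rw [hK1]; positivity
  obtain ⟨K2, hK2⟩ : ∃ K2 : ℝ, K2 = 36 * K1 * (9 * (σ + 1) ^ 4) ^ 8 := ⟨_, rfl⟩
  have hK2pos : 0 < K2 := by rw [hK2]; positivity
  obtain ⟨Q0, hQ0⟩ := exists_nat_gt (4 * C / σ + 2 * C + K1 + K2 / c + 1)
  refine ⟨Q0, ?_⟩
  intro a1 a2 a3 g1 g2 g3 h1 h12 h23 e1 e2 e3
  have hQa : (Q0 : ℝ) ≤ a1 := by exact_mod_cast h1
  have hCσ : 0 < 4 * C / σ := by positivity
  have hK2c : 0 < K2 / c := by positivity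
  have h12r : (a1 : ℝ) + 1 ≤ a2 := by exact_mod_cast h12
  have h23r : (a2 : ℝ) + 1 ≤ a3 := by exact_mod_cast h23
  obtain ⟨q1, hq1⟩ : ∃ q : ℝ, q = (a1 : ℝ) := ⟨_, rfl⟩
  obtain ⟨q2, hq2⟩ : ∃ q : ℝ, q = (a2 : ℝ) := ⟨_, rfl⟩
  obtain ⟨q3, hq3⟩ : ∃ q : ℝ, q = (a3 : ℝ) := ⟨_, rfl⟩
  obtain ⟨p1, hp1⟩ : ∃ q : ℝ, q = (g1 : ℝ) ^ 2 := ⟨_, rfl⟩
  obtain ⟨p2, hp2⟩ : ∃ q : ℝ, q = (g2 : ℝ) ^ 2 := ⟨_, rfl⟩
  obtain ⟨p3, hp3⟩ : ∃ q : ℝ, q = (g3 : ℝ) ^ 2 := ⟨_, rfl⟩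
  rw [← hq1, ← hp1] at e1
  rw [← hq2, ← hp2] at e2
  rw [← hq3, ← hp3] at e3
  have ha10 : (0 : ℝ) ≤ a1 := Nat.cast_nonneg _
  have hq1_1 : 1 ≤ q1 := by rw [hq1]; linarith
  have hq12 : q1 + 1 ≤ q2 := by rw [hq1, hq2]; linarith
  have hq23 : q2 + 1 ≤ q3 := by rw [hq2, hq3]; linarith
  have hbig : 4 * C / σ < q1 := by rw [hq1]; linarith
  have hbig2 : 2 * C ≤ q1 := by rw [hq1]; linarith
  obtain ⟨R, hR⟩ : ∃ R : ℝ, R = q3 / q1 := ⟨_, rfl⟩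
  have hR13 : q3 / q1 ≤ R := hR.ge
  have hR12 : q2 / q1 ≤ R := by
    rw [hR]
    exact div_le_div_of_nonneg_right (by linarith) (by linarith)
  have hR23 : q3 / q2 ≤ R := by
    rw [hR]
    exact div_le_div_of_nonneg_left (by linarith) (by linarith) (by linarith)
  have hR1 : 1 ≤ R := by
    rw [hR, one_le_div (by linarith)]
    linarith
  obtain ⟨x1, x2, x3, x4⟩ := pair_all hσ0 hC hq1_1 hq12 le_rfl hq1_1 hR12 hbig hbig2 e1 e2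
  obtain ⟨y1, y2, y3, y4⟩ := pair_all hσ0 hC hq1_1 (by linarith : q1 + 1 ≤ q3) le_rfl hq1_1 hR13 hbig hbig2 e1 e3
  obtain ⟨z1, z2, z3, z4⟩ := pair_all hσ0 hC (by linarith : 1 ≤ q2) hq23 (by linarith : q1 ≤ q2) hq1_1 hR23
    hbig hbig2 e2 e3
  -- the integers
  obtain ⟨H12, hH12⟩ : ∃ H : ℤ, (H : ℝ) = q2 * p1 - q1 * p2 :=
    ⟨a2 * g1 ^ 2 - a1 * g2 ^ 2, by rw [hq1, hq2, hp1, hp2]; push_cast; ring⟩
  obtain ⟨H13, hH13⟩ : ∃ H : ℤ, (H : ℝ) = q3 * p1 - q1 * p3 :=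
    ⟨a3 * g1 ^ 2 - a1 * g3 ^ 2, by rw [hq1, hq3, hp1, hp3]; push_cast; ring⟩
  obtain ⟨H23, hH23⟩ : ∃ H : ℤ, (H : ℝ) = q3 * p2 - q2 * p3 :=
    ⟨a3 * g2 ^ 2 - a2 * g3 ^ 2, by rw [hq2, hq3, hp2, hp3]; push_cast; ring⟩
  rw [← hH12] at x1 x2 x4
  rw [← hH13] at y1 y2 y4
  rw [← hH23] at z1 z2 z4
  obtain ⟨M, hM⟩ : ∃ M : ℝ, M = (σ + 1) * R := ⟨_, rfl⟩
  rw [← hM] at x2 x3 y2 y3 z2 z3
  have hM1 : 1 ≤ M := by
    rw [hM]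
    exact one_le_mul_of_one_le_of_one_le (by linarith) hR1
  obtain ⟨δ, hδ⟩ : ∃ δ : ℝ, δ = 2 * C * R / q1 ^ 2 := ⟨_, rfl⟩
  rw [← hδ] at x1 y1 z1
  have hδ0 : 0 ≤ δ := (abs_nonneg _).trans x1
  obtain ⟨A, hA⟩ : ∃ A : ℤ, A = Af (H12 ^ 2) (H13 ^ 2) (H23 ^ 2) := ⟨_, rfl⟩
  obtain ⟨B, hB⟩ : ∃ B : ℤ, B = H12 ^ 2 * H13 ^ 2 * H23 ^ 2 := ⟨_, rfl⟩
  have hAr : (A : ℝ) = Af ((H12 : ℝ) ^ 2) ((H13 : ℝ) ^ 2) ((H23 : ℝ) ^ 2) := by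
    rw [hA]
    unfold Af
    push_cast
    ring
  have hBr : (B : ℝ) = (H12 : ℝ) ^ 2 * (H13 : ℝ) ^ 2 * (H23 : ℝ) ^ 2 := by
    rw [hB]
    push_cast
    ring
  have hid := ident (σ := σ) (x := q1) (y := q2) (z := q3) (by linarith) (by linarith) (by linarith)
  have hAc := Af_close (sq_abs_le x2) (sq_abs_le y2) (sq_abs_le z2) (sq_abs_le x3) (sq_abs_le y3) (sq_abs_le z3)
    (sq_close x1 x2 x3) (sq_close y1 y2 y3) (sq_close z1 z2 z3)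
  have hBc := Bf_close (sq_abs_le x2) (sq_abs_le y2) (sq_abs_le y3) (sq_abs_le z3)
    (sq_close x1 x2 x3) (sq_close y1 y2 y3) (sq_close z1 z2 z3)
  have hAle := Af_le (sq_abs_le x2) (sq_abs_le y2) (sq_abs_le z2)
  rw [← hAr] at hAc hAle
  rw [← hBr] at hBc
  rw [← hid] at hBc
  obtain ⟨As, hAs⟩ : ∃ As : ℝ, As = Af ((σ * (q2 / q1 - q1 / q2)) ^ 2) ((σ * (q3 / q1 - q1 / q3)) ^ 2)
    ((σ * (q3 / q2 - q2 / q3)) ^ 2) := ⟨_, rfl⟩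
  rw [← hAs] at hAc hBc
  have hM2 : (M ^ 2) ≤ (M ^ 2) ^ 2 := le_self_pow₀ (one_le_pow₀ hM1) (by norm_num)
  have hX : |σ ^ 2 * A - B| ≤ K1 * R ^ 6 / q1 ^ 2 := by
    have t1 : σ ^ 2 * A - B = σ ^ 2 * (A - As) - (B - σ ^ 2 * As) := by ring
    rw [t1]
    refine (abs_sub _ _).trans ?_
    rw [abs_mul, abs_of_nonneg (sq_nonneg σ)]
    have t2 : σ ^ 2 * |(A : ℝ) - As| ≤ σ ^ 2 * (18 * (M ^ 2) ^ 2 * (2 * M * δ)) := by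
      apply mul_le_mul_of_nonneg_left _ (sq_nonneg σ)
      refine hAc.trans ?_
      apply mul_le_mul_of_nonneg_right _ (by positivity)
      linarith
    have t3 : K1 * R ^ 6 / q1 ^ 2 = (18 * σ ^ 2 + 3) * (M ^ 2) ^ 2 * (2 * M * δ) := by
      rw [hK1, hM, hδ]
      ring
    rw [t3]
    linarith
  have hq1sq : 0 < q1 ^ 2 := by positivity
  have hR38 : R ^ 6 ≤ R ^ 38 := pow_le_pow_right₀ hR1 (by norm_num)
  have key : q1 ^ 2 ≤ (K1 + K2 / c) * R ^ 38 := by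
    by_cases hA0 : A = 0
    · rw [hA0, Int.cast_zero, mul_zero, zero_sub, abs_neg] at hX
      have hB1 : (1 : ℝ) ≤ |(B : ℝ)| := by
        have h5 : 0 < H12 := by exact_mod_cast x4
        have h6 : 0 < H13 := by exact_mod_cast y4
        have h7 : 0 < H23 := by exact_mod_cast z4
        have h8 : 0 < B := by rw [hB]; positivity
        have h9 : (1 : ℤ) ≤ |B| := Int.one_le_abs h8.ne'
        exact_mod_cast h9
      have h10 := hB1.trans hX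
      rw [le_div_iff₀ hq1sq, one_mul] at h10
      have h11 : K1 * R ^ 6 ≤ K1 * R ^ 38 := mul_le_mul_of_nonneg_left hR38 hK1pos.le
      have h12 : 0 ≤ K2 / c * R ^ 38 := by positivity
      linarith
    · have h5 := hmeas A (2 * A + 36 * B) hA0
      rw [hcosh] at h5
      have h6 : (A : ℝ) * (2 + 36 * σ ^ 2) - ((2 * A + 36 * B : ℤ) : ℝ) = 36 * (σ ^ 2 * A - B) := by
        push_cast
        ring
      rw [h6, abs_mul, abs_of_pos (by norm_num : (0 : ℝ) < 36)] at h5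
      have h7 : |(A : ℝ)| ^ 8 ≤ (9 * (σ + 1) ^ 4 * R ^ 4) ^ 8 := by
        apply pow_le_pow_left₀ (abs_nonneg _)
        refine hAle.trans (le_of_eq ?_)
        rw [hM]
        ring
      have h8 : c ≤ 36 * (K1 * R ^ 6 / q1 ^ 2) * (9 * (σ + 1) ^ 4 * R ^ 4) ^ 8 :=
        h5.trans (mul_le_mul (mul_le_mul_of_nonneg_left hX (by norm_num)) h7 (by positivity) (by positivity))
      have h9 : 36 * (K1 * R ^ 6 / q1 ^ 2) * (9 * (σ + 1) ^ 4 * R ^ 4) ^ 8 = K2 * R ^ 38 / q1 ^ 2 := by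
        rw [hK2]
        ring
      rw [h9, le_div_iff₀ hq1sq] at h8
      have h10 : q1 ^ 2 ≤ K2 / c * R ^ 38 := by
        have : K2 / c * R ^ 38 = (K2 * R ^ 38) / c := by ring
        rw [this, le_div_iff₀ hc]
        linarith
      have h11 : 0 ≤ K1 * R ^ 38 := by positivity
      linarith
  have hKq : K1 + K2 / c ≤ q1 := by rw [hq1]; linarith
  have key2 : q1 ^ 2 ≤ q1 * R ^ 38 := key.trans (mul_le_mul_of_nonneg_right hKq (by positivity))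
  have key3 : q1 ≤ R ^ 38 := by
    have : q1 * q1 ≤ q1 * R ^ 38 := by rw [← sq]; exact key2
    exact le_of_mul_le_mul_left this (by linarith)
  have key4 : q1 ^ 39 ≤ q3 ^ 38 := by
    rw [hR, div_pow, le_div_iff₀ (by positivity)] at key3
    calc q1 ^ 39 = q1 * q1 ^ 38 := by ring
      _ ≤ q3 ^ 38 := key3
  rw [hq1, hq3] at key4
  exact_mod_cast key4

end Pool.Agent.Padt
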